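import Mathlib

/-!
# Tree-independence number versus induced biclique number in `P₅`-free graphs

For every `c` the graph obtained from the five-cycle by replacing every vertex by `c + 1`
independent twins is `P₅`-free, has induced biclique number `c + 1` and tree-independence number
`2 * (c + 1)`.  So no additive constant bounds the tree-independence number of a `P₅`-free graph
in terms of its induced biclique number.
-/

namespace Pool.Agent.Results.MP_0bffa7_co.FiveCycleBlowup

open SimpleGraph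

/-- A tree decomposition of `G` whose tree has node set `T`. -/
structure TreeDecomposition {V : Type} (G : SimpleGraph V) (T : Type) where
  /-- the tree -/
  tree : SimpleGraph T
  /-- it is a tree -/
  isTree : tree.IsTree
  /-- the bags -/
  bag : T → Set V
  /-- every vertex lies in some bag -/
  exists_bag_of_vertex : ∀ v : V, ∃ t : T, v ∈ bag t
  /-- every edge lies in some bag -/
  exists_bag_of_edge : ∀ u v : V, G.Adj u v → ∃ t : T, u ∈ bag t ∧ v ∈ bag t
  /-- the nodes whose bag contains a given vertex induce a connected subtree -/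
  connected : ∀ v : V, (tree.induce {t : T | v ∈ bag t}).Connected

/-- The tree-independence number: the least `k` such that some tree decomposition of `G`
has all its bags `X` with `α(G[X]) ≤ k`. -/
noncomputable def treeAlpha {V : Type} (G : SimpleGraph V) : ℕ :=
  sInf {k : ℕ | ∃ (T : Type) (D : TreeDecomposition G T),
    ∀ t : T, (G.induce (D.bag t)).indepNum ≤ k}

/-- The induced biclique number: the largest `t` such that `K_{t,t}` is an induced subgraph. -/
noncomputable def ibn {V : Type} (G : SimpleGraph V) : ℕ :=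
  sSup {t : ℕ | (completeBipartiteGraph (Fin t) (Fin t)).IsIndContained G}

/-! ### The Helly property of subtrees -/

section Helly

variable {T : Type*} {tr : SimpleGraph T}

/-- In a connected vertex set, any two vertices are joined by a path inside the set. -/
lemma exists_path_inside {S : Set T} (hS : (tr.induce S).Connected) {x y : T}
    (hx : x ∈ S) (hy : y ∈ S) :
    ∃ p : tr.Walk x y, p.IsPath ∧ ∀ z ∈ p.support, z ∈ S := by
  classical
  have key : ∀ (a b : S) (p : (tr.induce S).Walk a b),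
      ∃ q : tr.Walk (a : T) (b : T), ∀ z ∈ q.support, z ∈ S := by
    intro a b p
    induction p with
    | @nil a => exact ⟨Walk.nil, by simp⟩
    | @cons a c b h p ih =>
      obtain ⟨q, hq⟩ := ih
      have h' : tr.Adj (a : T) (c : T) := h
      refine ⟨Walk.cons h' q, ?_⟩
      intro z hz
      rw [Walk.support_cons, List.mem_cons] at hz
      rcases hz with rfl | hz
      · exact a.2
      · exact hq z hz
  obtain ⟨p⟩ := hS.preconnected ⟨x, hx⟩ ⟨y, hy⟩
  obtain ⟨q, hq⟩ := key _ _ p
  exact ⟨q.bypass, q.bypass_isPath, fun z hz => hq z (q.support_bypass_subset_support hz)⟩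

/-- If `m` is a vertex of `S` closest to `r`, then every path from `x ∈ S` to `r` consists of a
path inside `S` followed by a shortest path from `m` to `r`. -/
lemma mem_or_of_mem_path (htr : tr.IsTree) {S : Set T} (hS : (tr.induce S).Connected)
    {r m x z : T} (hm : m ∈ S) (hmin : ∀ y ∈ S, tr.dist m r ≤ tr.dist y r) (hx : x ∈ S)
    (P : tr.Walk x r) (hP : P.IsPath) :
    m ∈ P.support ∧ (z ∈ P.support → z ∈ S ∨ tr.dist z r < tr.dist m r) := by
  classical
  obtain ⟨p, hp, hpS⟩ := exists_path_inside hS hx hm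
  obtain ⟨q, hq, hql⟩ := htr.connected.exists_path_of_dist m r
  have hqd : ∀ y ∈ q.support, y = m ∨ tr.dist y r < tr.dist m r := by
    intro y hy
    by_cases hym : y = m
    · exact Or.inl hym
    · right
      have h1 : (q.takeUntil y hy).length + (q.dropUntil y hy).length = q.length := by
        rw [← Walk.length_append, Walk.take_spec]
      have h2 : tr.dist y r ≤ (q.dropUntil y hy).length := dist_le _
      have h3 : (q.takeUntil y hy).length ≠ 0 := by
        intro h0
        exact hym (Walk.eq_of_length_eq_zero h0).symm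
      omega
  have hpath : (p.append q).IsPath := by
    rw [Walk.isPath_def, Walk.support_append]
    rw [List.nodup_append]
    refine ⟨hp.support_nodup, ?_, ?_⟩
    · exact hq.support_nodup.tail
    · intro a ha b hb hab
      subst hab
      have hb' : a ∈ q.support := List.mem_of_mem_tail hb
      rcases hqd a hb' with h | h
      · subst h
        have := hq.support_nodup
        rw [← Walk.cons_tail_support] at this
        exact (List.nodup_cons.1 this).1 hb
      · exact absurd (hmin a (hpS a ha)) (not_le.2 h)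
  have heq : P = p.append q := congrArg Subtype.val
    ((htr.isAcyclic.subsingleton_path x r).elim ⟨P, hP⟩ ⟨p.append q, hpath⟩)
  subst heq
  constructor
  · rw [Walk.mem_support_append_iff]
    exact Or.inl (Walk.end_mem_support p)
  · intro hz
    rw [Walk.mem_support_append_iff] at hz
    rcases hz with hz | hz
    · exact Or.inl (hpS z hz)
    · rcases hqd z hz with h | h
      · exact Or.inl (h ▸ hm)
      · exact Or.inr h

/-- **Helly property of subtrees**: finitely many pairwise meeting connected vertex sets of a tree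
have a common vertex. -/
lemma helly_subtrees (htr : tr.IsTree) {ι : Type*} [Finite ι] [Nonempty ι] (S : ι → Set T)
    (hS : ∀ i, (tr.induce (S i)).Connected) (hmeet : ∀ i j, (S i ∩ S j).Nonempty) :
    ∃ t, ∀ i, t ∈ S i := by
  classical
  obtain ⟨r⟩ := htr.connected.nonempty
  have hmin : ∀ i, ∃ m ∈ S i, ∀ y ∈ S i, tr.dist m r ≤ tr.dist y r := by
    intro i
    obtain ⟨x, hx⟩ := (hmeet i i)
    have := WellFounded.has_min (measure fun y : T => tr.dist y r).wf (S i) ⟨x, hx.1⟩
    obtain ⟨m, hm, hm'⟩ := this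
    exact ⟨m, hm, fun y hy => not_lt.1 (hm' y hy)⟩
  choose m hm hmm using hmin
  obtain ⟨i₀, hi₀⟩ := Finite.exists_max fun i => tr.dist (m i) r
  refine ⟨m i₀, fun i => ?_⟩
  obtain ⟨x, hx₀, hx⟩ := hmeet i₀ i
  obtain ⟨P, hP⟩ := htr.connected.exists_isPath x r
  have h1 := (mem_or_of_mem_path htr (hS i₀) (hm i₀) (hmm i₀) hx₀ (z := x) P hP).1
  rcases (mem_or_of_mem_path htr (hS i) (hm i) (hmm i) hx (z := m i₀) P hP).2 h1 with h | h
  · exact h
  · exact absurd (hi₀ i) (not_le.2 h)

end Helly

/-! ### The blow-up of the five-cycle -/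

/-- The five-cycle with each vertex replaced by `m` independent twins. -/
def blowup (m : ℕ) : SimpleGraph (ZMod 5 × Fin m) where
  Adj x y := y.1 = x.1 + 1 ∨ x.1 = y.1 + 1
  symm := ⟨fun _ _ h => h.symm⟩
  loopless := ⟨fun x h => by
    rcases h with h | h <;>
    · revert h
      generalize x.1 = i
      revert i
      decide⟩

lemma blowup_adj {m : ℕ} {x y : ZMod 5 × Fin m} :
    (blowup m).Adj x y ↔ (y.1 = x.1 + 1 ∨ x.1 = y.1 + 1) := Iff.rfl

/-- The blow-up of the five-cycle is `P₅`-free. -/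
lemma blowup_P5_free (m : ℕ) : ¬ (pathGraph 5).IsIndContained (blowup m) := by
  rintro ⟨f⟩
  have hadj : ∀ i j : Fin 5, (pathGraph 5).Adj i j ↔
      ((f j).1 = (f i).1 + 1 ∨ (f i).1 = (f j).1 + 1) := by
    intro i j
    rw [← blowup_adj]
    exact (f.map_adj_iff).symm
  have key : ∀ c : Fin 5 → ZMod 5,
      (c 1 = c 0 + 1 ∨ c 0 = c 1 + 1) → (c 2 = c 1 + 1 ∨ c 1 = c 2 + 1) →
      (c 3 = c 2 + 1 ∨ c 2 = c 3 + 1) → (c 4 = c 3 + 1 ∨ c 3 = c 4 + 1) →
      ¬ (c 3 = c 0 + 1 ∨ c 0 = c 3 + 1) → ¬ (c 4 = c 1 + 1 ∨ c 1 = c 4 + 1) →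
      ¬ (c 4 = c 0 + 1 ∨ c 0 = c 4 + 1) → False := by
    have h5 : ∀ c0 c1 c2 c3 c4 : ZMod 5,
        (c1 = c0 + 1 ∨ c0 = c1 + 1) → (c2 = c1 + 1 ∨ c1 = c2 + 1) →
        (c3 = c2 + 1 ∨ c2 = c3 + 1) → (c4 = c3 + 1 ∨ c3 = c4 + 1) →
        ¬ (c3 = c0 + 1 ∨ c0 = c3 + 1) → ¬ (c4 = c1 + 1 ∨ c1 = c4 + 1) →
        ¬ (c4 = c0 + 1 ∨ c0 = c4 + 1) → False := by
      decide
    intro c
    exact h5 (c 0) (c 1) (c 2) (c 3) (c 4)
  refine key (fun i => (f i).1) ?_ ?_ ?_ ?_ ?_ ?_ ?_
  · exact (hadj 0 1).1 (by simp [pathGraph_adj])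
  · exact (hadj 1 2).1 (by simp [pathGraph_adj])
  · exact (hadj 2 3).1 (by simp [pathGraph_adj])
  · exact (hadj 3 4).1 (by simp [pathGraph_adj])
  · exact fun h => absurd ((hadj 0 3).2 h) (by simp [pathGraph_adj])
  · exact fun h => absurd ((hadj 1 4).2 h) (by simp [pathGraph_adj])
  · exact fun h => absurd ((hadj 0 4).2 h) (by simp [pathGraph_adj])

/-- The induced biclique number of the blow-up. -/
lemma ibn_blowup (m : ℕ) : ibn (blowup m) = m := by
  unfold ibn
  refine IsGreatest.csSup_eq ⟨?_, ?_⟩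
  · refine ⟨⟨⟨Sum.elim (fun a => ((0 : ZMod 5), a)) (fun b => ((1 : ZMod 5), b)), ?_⟩, ?_⟩⟩
    · rintro (a | a) (b | b) h <;> simp at h <;> try simp [h]
      · exact absurd h.1 (by decide)
      · exact absurd h.1 (by decide)
    · have h01 : ¬ ((0 : ZMod 5) = 0 + 1 ∨ (0 : ZMod 5) = 0 + 1) := by decide
      have h11 : ¬ ((1 : ZMod 5) = 1 + 1 ∨ (1 : ZMod 5) = 1 + 1) := by decide
      have h10 : ((1 : ZMod 5) = 0 + 1 ∨ (0 : ZMod 5) = 1 + 1) := by decide
      rintro (a | a) (b | b)
      · exact iff_of_false h01 (by simp)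
      · exact iff_of_true h10 (by simp)
      · exact iff_of_true h10.symm (by simp)
      · exact iff_of_false h11 (by simp)
  · rintro t ⟨f⟩
    have hLR : ∀ a b : Fin t, (blowup m).Adj (f (Sum.inl a)) (f (Sum.inr b)) := by
      intro a b
      exact f.map_adj_iff.2 (by simp)
    have hC4 : ∀ i i' j j' : ZMod 5, (j = i + 1 ∨ i = j + 1) → (j' = i + 1 ∨ i = j' + 1) →
        (j = i' + 1 ∨ i' = j + 1) → (j' = i' + 1 ∨ i' = j' + 1) → i ≠ i' → j ≠ j' → False := by
      decide
    by_cases hL : ∀ a a' : Fin t, (f (Sum.inl a)).1 = (f (Sum.inl a')).1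
    · have hinj : Function.Injective fun a : Fin t => (f (Sum.inl a)).2 := by
        intro a a' h
        have : f (Sum.inl a) = f (Sum.inl a') := Prod.ext (hL a a') h
        simpa using f.injective this
      simpa using Fintype.card_le_of_injective _ hinj
    · push Not at hL
      obtain ⟨a, a', haa⟩ := hL
      have hR : ∀ b b' : Fin t, (f (Sum.inr b)).1 = (f (Sum.inr b')).1 := by
        intro b b'
        by_contra h
        exact hC4 _ _ _ _ (hLR a b) (hLR a b') (hLR a' b) (hLR a' b') haa h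
      have hinj : Function.Injective fun b : Fin t => (f (Sum.inr b)).2 := by
        intro b b' h
        have : f (Sum.inr b) = f (Sum.inr b') := Prod.ext (hR b b') h
        simpa using f.injective this
      simpa using Fintype.card_le_of_injective _ hinj

/-- The one-bag tree decomposition. -/
def trivialDecomposition {V : Type} (G : SimpleGraph V) : TreeDecomposition G Unit where
  tree := ⊥
  isTree := IsTree.of_subsingleton
  bag _ := Set.univ
  exists_bag_of_vertex v := ⟨(), trivial⟩
  exists_bag_of_edge u v _ := ⟨(), trivial, trivial⟩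
  connected v := by
    have : Nonempty ({t : Unit | v ∈ (Set.univ : Set V)} : Set Unit) := ⟨⟨(), trivial⟩⟩
    exact (IsTree.of_subsingleton (V := ({t : Unit | v ∈ (Set.univ : Set V)} : Set Unit))).connected

/-- Every independent set of the blow-up has at most `2 * m` elements. -/
lemma indepNum_induce_le (m : ℕ) (X : Set (ZMod 5 × Fin m)) :
    ((blowup m).induce X).indepNum ≤ 2 * m := by
  classical
  obtain ⟨s, hs⟩ := ((blowup m).induce X).exists_isNIndepSet_indepNum
  rw [← hs.card_eq]
  have hcl : ∀ C : ZMod 5 → Bool, (∀ i, ¬ (C i = true ∧ C (i + 1) = true)) →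
      ∃ i, ∀ c, C c = true → c = i ∨ c = i + 2 := by decide
  obtain ⟨i, hi⟩ := hcl (fun c => decide (∃ x ∈ s, x.1.1 = c)) (by
    rintro i ⟨h1, h2⟩
    obtain ⟨x, hx, hxi⟩ := of_decide_eq_true h1
    obtain ⟨y, hy, hyi⟩ := of_decide_eq_true h2
    have hadj : ((blowup m).induce X).Adj x y := by
      show (blowup m).Adj x.1 y.1
      rw [blowup_adj, hxi, hyi]
      exact Or.inl rfl
    exact hs.isIndepSet hx hy hadj.ne hadj)
  have hsub : (s.map (Function.Embedding.subtype (· ∈ X))) ⊆
      (({i, i + 2} : Finset (ZMod 5)) ×ˢ (Finset.univ : Finset (Fin m))) := by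
    intro x hx
    obtain ⟨y, hy, rfl⟩ := Finset.mem_map.1 hx
    rw [Finset.mem_product]
    refine ⟨?_, Finset.mem_univ _⟩
    have := hi y.1.1 (decide_eq_true ⟨y, hy, rfl⟩)
    simpa using this
  have h1 := Finset.card_le_card hsub
  rw [Finset.card_map, Finset.card_product, Finset.card_univ, Fintype.card_fin] at h1
  have h2 : ({i, i + 2} : Finset (ZMod 5)).card ≤ 2 := Finset.card_le_two
  exact h1.trans (Nat.mul_le_mul_right _ h2)

/-- In every tree decomposition of the blow-up, some bag contains two non-adjacent classes. -/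
lemma exists_bag_two_classes {m : ℕ} {T : Type} (D : TreeDecomposition (blowup m) T)
    (hm : 0 < m) : ∃ (t : T) (i : ZMod 5), (∀ a, (i, a) ∈ D.bag t) ∧ (∀ a, (i + 2, a) ∈ D.bag t) := by
  classical
  have : Nonempty (Fin m) := ⟨⟨0, hm⟩⟩
  set N : ZMod 5 × Fin m → Set T := fun v => {t | v ∈ D.bag t} with hN
  set S : ZMod 5 × Fin m × Fin m × Fin m → Set T := fun x =>
    (N (x.1, x.2.1) ∪ N (x.1 + 1, x.2.2.1)) ∪ N (x.1 + 2, x.2.2.2) with hS
  have hedge : ∀ u v, (blowup m).Adj u v → (N u ∩ N v).Nonempty := by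
    intro u v h
    obtain ⟨t, h1, h2⟩ := D.exists_bag_of_edge u v h
    exact ⟨t, h1, h2⟩
  have hconn : ∀ x, (D.tree.induce (S x)).Connected := by
    rintro ⟨i, a, b, c⟩
    have h1 : (D.tree.induce (N (i, a) ∪ N (i + 1, b))).Connected := by
      refine induce_union_connected (D.connected _).preconnected (D.connected _).preconnected ?_
      exact hedge _ _ (Or.inl rfl)
    refine induce_union_connected h1.preconnected (D.connected _).preconnected ?_
    obtain ⟨t, ht1, ht2⟩ := hedge (i + 1, b) (i + 2, c) (Or.inl (by ring))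
    exact ⟨t, Or.inr ht1, ht2⟩
  have hmeet : ∀ x y, (S x ∩ S y).Nonempty := by
    have hpair : ∀ i j : ZMod 5, ∃ k l : ZMod 5, (k = 0 ∨ k = 1 ∨ k = 2) ∧
        (l = 0 ∨ l = 1 ∨ l = 2) ∧ (j + l = i + k + 1 ∨ i + k = j + l + 1) := by decide
    rintro ⟨i, a, b, c⟩ ⟨j, a', b', c'⟩
    obtain ⟨k, l, hk, hl, hkl⟩ := hpair i j
    have h1 : ∃ u : ZMod 5 × Fin m, u.1 = i + k ∧ N u ⊆ S (i, a, b, c) := by
      rcases hk with rfl | rfl | rfl
      · exact ⟨(i, a), by simp, fun t ht => Or.inl (Or.inl ht)⟩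
      · exact ⟨(i + 1, b), by simp, fun t ht => Or.inl (Or.inr ht)⟩
      · exact ⟨(i + 2, c), by simp, fun t ht => Or.inr ht⟩
    have h2 : ∃ u : ZMod 5 × Fin m, u.1 = j + l ∧ N u ⊆ S (j, a', b', c') := by
      rcases hl with rfl | rfl | rfl
      · exact ⟨(j, a'), by simp, fun t ht => Or.inl (Or.inl ht)⟩
      · exact ⟨(j + 1, b'), by simp, fun t ht => Or.inl (Or.inr ht)⟩
      · exact ⟨(j + 2, c'), by simp, fun t ht => Or.inr ht⟩
    obtain ⟨u, hu, huS⟩ := h1
    obtain ⟨v, hv, hvS⟩ := h2
    obtain ⟨t, ht1, ht2⟩ := hedge u v (by rw [blowup_adj, hu, hv]; exact hkl)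
    exact ⟨t, huS ht1, hvS ht2⟩
  obtain ⟨t, ht⟩ := helly_subtrees D.isTree S hconn hmeet
  refine ⟨t, ?_⟩
  have hJ : ∀ i : ZMod 5, (∀ a, (i, a) ∈ D.bag t) ∨ (∀ a, (i + 1, a) ∈ D.bag t) ∨
      (∀ a, (i + 2, a) ∈ D.bag t) := by
    intro i
    by_contra hcon
    push Not at hcon
    obtain ⟨⟨a, ha⟩, ⟨b, hb⟩, ⟨c, hc⟩⟩ := hcon
    rcases ht (i, a, b, c) with (h | h) | h
    · exact ha h
    · exact hb h
    · exact hc h
  have hfin : ∀ J : ZMod 5 → Bool, (∀ i, J i = true ∨ J (i + 1) = true ∨ J (i + 2) = true) →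
      ∃ i, J i = true ∧ J (i + 2) = true := by decide
  obtain ⟨i, hi1, hi2⟩ := hfin (fun i => decide (∀ a, (i, a) ∈ D.bag t)) (by
    intro i
    simpa using hJ i)
  exact ⟨i, by simpa using hi1, by simpa using hi2⟩

/-- The tree-independence number of the blow-up. -/
lemma treeAlpha_blowup {m : ℕ} (hm : 0 < m) : treeAlpha (blowup m) = 2 * m := by
  classical
  unfold treeAlpha
  refine IsLeast.csInf_eq ⟨?_, ?_⟩
  · exact ⟨Unit, trivialDecomposition _, fun t => indepNum_induce_le m _⟩
  · rintro k ⟨T, D, hD⟩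
    obtain ⟨t, i, h1, h2⟩ := exists_bag_two_classes D hm
    refine le_trans ?_ (hD t)
    have hne : i ≠ i + 2 := by
      have : ∀ j : ZMod 5, j ≠ j + 2 := by decide
      exact this i
    let g : Fin m ⊕ Fin m → D.bag t := Sum.elim (fun a => ⟨(i, a), h1 a⟩) (fun a => ⟨(i + 2, a), h2 a⟩)
    have hg : Function.Injective g := by
      rintro (a | a) (b | b) h
      · simpa [g] using h
      · exact absurd (congrArg (fun x => x.1.1) h) hne
      · exact absurd (congrArg (fun x => x.1.1) h).symm hne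
      · simpa [g] using h
    have hnon : ∀ j : ZMod 5, ¬ (j = j + 1 ∨ j = j + 1) ∧ ¬ (j + 2 = j + 1 ∨ j = j + 2 + 1) ∧
        ¬ (j = j + 2 + 1 ∨ j + 2 = j + 1) ∧ ¬ (j + 2 = j + 2 + 1 ∨ j + 2 = j + 2 + 1) := by decide
    obtain ⟨n1, n2, n3, n4⟩ := hnon i
    have hind : ((blowup m).induce (D.bag t)).IsIndepSet
        ((Finset.univ.map ⟨g, hg⟩ : Finset (D.bag t)) : Set (D.bag t)) := by
      intro x hx y hy _
      rw [Finset.mem_coe, Finset.mem_map] at hx hy
      obtain ⟨x', -, rfl⟩ := hx
      obtain ⟨y', -, rfl⟩ := hy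
      rcases x' with a | a <;> rcases y' with b | b
      · exact n1
      · exact n2
      · exact n3
      · exact n4
    have hcard := hind.card_le_indepNum
    rw [Finset.card_map, Finset.card_univ, Fintype.card_sum, Fintype.card_fin] at hcard
    omega

/-- **Main result.**  For every constant `c` there is a finite simple `P₅`-free graph `G` with
`ibn G = c + 1` and `tree-α G = 2 * (c + 1)`; in particular `tree-α G > ibn G + c`. -/
theorem result : ∀ c : ℕ, ∃ (V : Type) (_ : Finite V) (G : SimpleGraph V),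
    ¬ (pathGraph 5).IsIndContained G ∧ ibn G = c + 1 ∧ treeAlpha G = 2 * (c + 1) ∧
      treeAlpha G > ibn G + c := by
  intro c
  refine ⟨ZMod 5 × Fin (c + 1), inferInstance, blowup (c + 1), blowup_P5_free _, ibn_blowup _,
    treeAlpha_blowup (Nat.succ_pos c), ?_⟩
  rw [ibn_blowup, treeAlpha_blowup (Nat.succ_pos c)]
  omega

end Pool.Agent.Results.MP_0bffa7_co.FiveCycleBlowup
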